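import Pool.Agent.W774.TL.Stm

/-!
# Project TL: domination after the crossing (DOM3)
-/

set_option autoImplicit false

namespace Pool.Agent.W234.TL

open Pool.Agent.W774.TL Set

lemma S_period (u : ℝ) (n : ℤ) : S (u + n) = S u := by
  unfold S
  rw [show 2 * Real.pi * (u + n) = 2 * Real.pi * u + n * (2 * Real.pi) by ring,
    Real.sin_add_int_mul_two_pi]

lemma S_neg (u : ℝ) : S (-u) = -S u := by
  unfold S
  rw [show 2 * Real.pi * (-u) = -(2 * Real.pi * u) by ring, Real.sin_neg, neg_div]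

lemma S_abs (u : ℝ) : |S u| ≤ 1592 / 10000 := by
  unfold S
  have hpi := Real.pi_gt_d4
  have h2 : (0 : ℝ) < 2 * Real.pi := by positivity
  rw [abs_div, abs_of_pos h2, div_le_iff₀ h2]
  have := Real.abs_sin_le_one (2 * Real.pi * u)
  nlinarith

lemma S_le_abs (u : ℝ) : |S u| ≤ |u| := by
  unfold S
  have h2 : (0 : ℝ) < 2 * Real.pi := by positivity
  rw [abs_div, abs_of_pos h2, div_le_iff₀ h2]
  have h := Real.abs_sin_le_abs (x := 2 * Real.pi * u)
  rw [abs_mul, abs_of_pos h2] at h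
  linarith

lemma S_half (u : ℝ) : S u = S (1 / 2 - u) := by
  unfold S
  rw [show 2 * Real.pi * (1 / 2 - u) = Real.pi - 2 * Real.pi * u by ring, Real.sin_pi_sub]

lemma S_nonpos {u : ℝ} (h1 : 1 / 2 ≤ u) (h2 : u ≤ 1) : S u ≤ 0 := by
  rw [S_half, show (1 : ℝ) / 2 - u = -(u - 1 / 2) by ring, S_neg]
  have : 0 ≤ S (u - 1 / 2) := by
    unfold S
    apply div_nonneg _ (by positivity)
    apply Real.sin_nonneg_of_nonneg_of_le_pi
    · have := Real.pi_pos
      apply mul_nonneg (by positivity)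
      linarith
    · nlinarith [Real.pi_pos]
  linarith

/-- the claim for `j = k + 2` -/
lemma claim2 {u : ℝ} (h2 : u ≤ 51 / 100) : 9 * S u + 3 * u ≤ 247 / 100 := by
  have hS := (abs_le.1 (S_abs u)).2
  rcases le_or_gt u (34 / 100) with h | h
  · linarith
  rcases le_or_gt u (1 / 2) with h' | h'
  · have h3 : S u ≤ 1 / 2 - u := by
      rw [S_half]
      have := le_trans (le_abs_self _) (S_le_abs (1 / 2 - u))
      rwa [abs_of_nonneg (by linarith)] at this
    linarith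
  · have := S_nonpos h'.le (by linarith)
    linarith

lemma claim3 (n : ℕ) : (230 : ℝ) / 100 + 302 / 100 * ((n : ℝ) + 2) ≤ 5708 / 10000 * 3 ^ (n + 3) := by
  induction n with
  | zero => norm_num
  | succ n ih =>
    have h1 : (27 : ℝ) ≤ 3 ^ (n + 3) := by
      rw [pow_add]
      have : (1 : ℝ) ≤ 3 ^ n := one_le_pow₀ (by norm_num)
      nlinarith
    rw [show n + 1 + 3 = (n + 3) + 1 by ring, pow_succ]
    push_cast
    linarith

lemma V_eq (k : ℕ) (N : ℤ) (τ a : ℝ) (j : ℤ) :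
    V j (a + k * (τ + (k + 1)) + N) (τ + (k + 1)) =
      3 ^ j.natAbs * (3 / 4 + S (a - ((j : ℝ) - k) * τ)) := by
  unfold V
  rw [show a + k * (τ + (k + 1)) + N - (j : ℝ) * (τ + (k + 1)) =
    a - ((j : ℝ) - k) * τ + ((N - (j - k) * (k + 1) : ℤ) : ℝ) by push_cast; ring, S_period]

theorem dom3_thm : P_DOM3 := by
  intro k N τ a p hR j hj1 hj2
  obtain ⟨ht1, ht2, ha, hp⟩ := hR
  have hV1 := V_eq k N τ a ((k : ℤ) + 1)
  rw [hV1, V_eq k N τ a j]
  have hk1 : ((k : ℤ) + 1).natAbs = k + 1 := by omega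
  rw [hk1]
  have e1 : a - ((((k : ℤ) + 1 : ℤ) : ℝ) - k) * τ = a - τ := by push_cast; ring
  rw [e1, pow_succ]
  set A : ℝ := 3 ^ k with hA
  have hA0 : 0 < A := by positivity
  obtain ⟨ha1, ha2⟩ := abs_le.1 ha
  obtain ⟨hp1, hp2⟩ := abs_le.1 hp
  have hSb : S (a - τ) ≤ 1 / 100 := le_trans (le_abs_self _) (le_trans (S_le_abs _) ha)
  have hVb : A * 3 * (3 / 4 + S (a - τ)) ≤ 228 / 100 * A := by nlinarith
  have hSj := (abs_le.1 (S_abs (a - ((j : ℝ) - k) * τ))).1
  rcases lt_or_gt_of_ne hj1 with hlt | hgt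
  · -- j ≤ k - 1
    have h3 : (j : ℝ) ≤ k - 1 := by
      have : j ≤ (k : ℤ) - 1 := by omega
      exact_mod_cast this
    have hpA : 145 / 100 * A ≤ p := by nlinarith
    have hB : (0 : ℝ) < 3 ^ j.natAbs := by positivity
    have hVj : 5908 / 10000 * (3 : ℝ) ^ j.natAbs ≤
        3 ^ j.natAbs * (3 / 4 + S (a - ((j : ℝ) - k) * τ)) := by nlinarith
    have h4 : 2 * p ≤ ((k : ℝ) + 1 - j) * p := by
      apply mul_le_mul_of_nonneg_right _ (by nlinarith)
      linarith
    nlinarith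
  · rcases eq_or_ne j ((k : ℤ) + 2) with rfl | hne
    · -- j = k + 2
      have hk2 : ((k : ℤ) + 2).natAbs = k + 2 := by omega
      rw [hk2]
      have e2 : a - ((((k : ℤ) + 2 : ℤ) : ℝ) - k) * τ = -(τ - (a - τ)) := by push_cast; ring
      rw [e2, S_neg, pow_add]
      have hc := claim2 (u := τ - (a - τ)) (by linarith)
      have e3 : (((k : ℤ) + 2 : ℤ) : ℝ) = k + 2 := by push_cast; ring
      rw [e3]
      have hp3 : p ≤ A * (3 / 2 + 3 * τ + 1 / 50) := by linarith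
      have hc' : A * (9 * S (τ - (a - τ)) + 3 * (τ - (a - τ))) ≤ A * (247 / 100) :=
        mul_le_mul_of_nonneg_left hc hA0.le
      have hc2 : A * (a - τ) ≤ A * (1 / 100) := mul_le_mul_of_nonneg_left ha2 hA0.le
      have hc3 : A * (-(1 / 100)) ≤ A * (a - τ) := mul_le_mul_of_nonneg_left ha1 hA0.le
      rw [← hA]
      nlinarith
    · -- j ≥ k + 3
      obtain ⟨n, hn⟩ : ∃ n : ℕ, j = (k : ℤ) + 3 + n :=
        ⟨(j - (k + 3)).toNat, by omega⟩
      have hk3 : j.natAbs = k + (n + 3) := by omega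
      have hjr : (j : ℝ) = k + 3 + n := by rw [hn]; push_cast; ring
      rw [hk3] 
      rw [pow_add, ← hA]
      have hc := claim3 n
      have hpA : p ≤ 302 / 100 * A := by nlinarith
      have hB : (0 : ℝ) < A * 3 ^ (n + 3) := by positivity
      have hVj : 5908 / 10000 * (A * (3 : ℝ) ^ (n + 3)) ≤
          A * 3 ^ (n + 3) * (3 / 4 + S (a - ((j : ℝ) - k) * τ)) := by nlinarith
      have h4 : ((n : ℝ) + 2) * p ≤ ((n : ℝ) + 2) * (302 / 100 * A) :=
        mul_le_mul_of_nonneg_left hpA (by positivity)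
      have h5 : A * ((230 : ℝ) / 100 + 302 / 100 * ((n : ℝ) + 2)) ≤
          A * (5708 / 10000 * 3 ^ (n + 3)) := mul_le_mul_of_nonneg_left hc hA0.le
      have h6 : (j : ℝ) * p = ((n : ℝ) + 2) * p + (k + 1) * p := by rw [hjr]; ring
      rw [h6]
      nlinarith

end Pool.Agent.W234.TL
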